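import Mathlib
import Pool.Agent.Helper949_Geod.Num

set_option autoImplicit false
set_option linter.unusedSimpArgs false
set_option linter.unusedVariables false

/-!
MP_be4ebb_co.  The number `g n` of biconnected geodetic graphs with `n` vertices tends to infinity.

Construction.  For `1 ≤ h < L` let `Gr L h` be the following subdivision of a graph with eight
branch vertices `a, p, q 0, q 1, q 2, t 0, t 1, t 2`: the vertex `a` is joined to `p` and to each
`q i` by a path of length `L`, each `q i` is joined to `p` by a path of length `2h+1` and to `t i` by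
a path of length `h`, and `t 0, t 1, t 2` form a triangle.  It has `1 + 4L + 9h` vertices, diameter
`L + 2h`, and it is biconnected and geodetic.  Since `4` and `9` are coprime, for every large `n`
there are many pairs `(L, h)` with `1 + 4L + 9h = n`.
-/

namespace Pool.Agent.Results.MP_be4ebb_co.GeodeticBlocks

open Pool.Agent.Helper949_Geod

/-- A graph is geodetic if it is connected and every two vertices are joined by exactly one
shortest path. -/
def IsGeodetic {V : Type} (G : SimpleGraph V) : Prop :=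
  G.Connected ∧ ∀ u v : V, ∃! p : G.Walk u v, p.IsPath ∧ p.length = G.dist u v

/-- A graph is biconnected if it is connected, has at least three vertices, and stays connected
after deleting any single vertex. -/
def IsBiconnected {V : Type} (G : SimpleGraph V) : Prop :=
  G.Connected ∧ 3 ≤ Nat.card V ∧ ∀ v : V, (G.induce {v}ᶜ).Connected

/-- The relation of isomorphism on biconnected geodetic graphs with vertex set `Fin n`. -/
def isoSetoid (n : ℕ) : Setoid {G : SimpleGraph (Fin n) // IsBiconnected G ∧ IsGeodetic G} where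
  r G H := Nonempty (G.1 ≃g H.1)
  iseqv := ⟨fun _ => ⟨RelIso.refl _⟩, fun ⟨e⟩ => ⟨e.symm⟩, fun ⟨e⟩ ⟨f⟩ => ⟨e.trans f⟩⟩

/-- `g n` is the number of isomorphism classes of biconnected geodetic graphs with `n` vertices. -/
noncomputable def g (n : ℕ) : ℕ := Nat.card (Quotient (isoSetoid n))

section cert

variable {V : Type} {G : SimpleGraph V} {D : V → V → ℕ}

theorem cert_le (h0 : ∀ v, D v v = 0) (h1 : ∀ u w v, G.Adj u w → D u v ≤ D w v + 1) {u v : V}
    (p : G.Walk u v) : D u v ≤ p.length := by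
  induction p with
  | nil => simp [h0]
  | cons h p ih =>
    rw [SimpleGraph.Walk.length_cons]
    exact (h1 _ _ _ h).trans (by omega)

theorem cert_exists (h0 : ∀ v, D v v = 0)
    (h2 : ∀ u v, u ≠ v → ∃ w, G.Adj u w ∧ D w v + 1 = D u v) (n : ℕ) :
    ∀ u v : V, D u v = n → ∃ p : G.Walk u v, p.length = n := by
  induction n with
  | zero =>
    intro u v hd
    by_cases huv : u = v
    · subst huv; exact ⟨SimpleGraph.Walk.nil, rfl⟩
    · obtain ⟨w, -, hw⟩ := h2 u v huv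
      omega
  | succ n ih =>
    intro u v hd
    have huv : u ≠ v := by
      rintro rfl
      rw [h0] at hd
      omega
    obtain ⟨w, hadj, hw⟩ := h2 u v huv
    obtain ⟨p, hp⟩ := ih w v (by omega)
    exact ⟨SimpleGraph.Walk.cons hadj p, by rw [SimpleGraph.Walk.length_cons, hp]⟩

theorem cert_unique (h0 : ∀ v, D v v = 0) (h1 : ∀ u w v, G.Adj u w → D u v ≤ D w v + 1)
    (h3 : ∀ u v w w', G.Adj u w → G.Adj u w' → D w v + 1 = D u v → D w' v + 1 = D u v → w = w')
    {u v : V} (p : G.Walk u v) : ∀ q : G.Walk u v, p.length = D u v → q.length = D u v → p = q := by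
  induction p with
  | nil =>
    intro q hp hq
    rw [h0] at hq
    cases q with
    | nil => rfl
    | cons h q => simp at hq
  | @cons u w v hadj p ih =>
    intro q hp hq
    cases q with
    | nil =>
      rw [h0] at hp
      simp at hp
    | @cons _ w' _ hadj' q =>
      rw [SimpleGraph.Walk.length_cons] at hp hq
      have e1 := cert_le h0 h1 p
      have e2 := h1 _ _ v hadj
      have e3 := cert_le h0 h1 q
      have e4 := h1 _ _ v hadj'
      have hw : w = w' := h3 u v w w' hadj hadj' (by omega) (by omega)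
      subst hw
      rw [ih q (by omega) (by omega)]

theorem cert_conn [Nonempty V] (h0 : ∀ v, D v v = 0)
    (h2 : ∀ u v, u ≠ v → ∃ w, G.Adj u w ∧ D w v + 1 = D u v) : G.Connected := by
  refine { preconnected := fun u v => ?_, nonempty := inferInstance }
  obtain ⟨p, -⟩ := cert_exists h0 h2 _ u v rfl
  exact ⟨p⟩

theorem cert_dist (h0 : ∀ v, D v v = 0) (h1 : ∀ u w v, G.Adj u w → D u v ≤ D w v + 1)
    (h2 : ∀ u v, u ≠ v → ∃ w, G.Adj u w ∧ D w v + 1 = D u v) (u v : V) : G.dist u v = D u v := by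
  obtain ⟨p, hp⟩ := cert_exists h0 h2 _ u v rfl
  refine le_antisymm (hp ▸ SimpleGraph.dist_le p) ?_
  obtain ⟨q, hq⟩ := SimpleGraph.Reachable.exists_walk_length_eq_dist ⟨p⟩
  rw [← hq]
  exact cert_le h0 h1 q

theorem cert_geodetic [Nonempty V] (h0 : ∀ v, D v v = 0)
    (h1 : ∀ u w v, G.Adj u w → D u v ≤ D w v + 1)
    (h2 : ∀ u v, u ≠ v → ∃ w, G.Adj u w ∧ D w v + 1 = D u v)
    (h3 : ∀ u v w w', G.Adj u w → G.Adj u w' → D w v + 1 = D u v → D w' v + 1 = D u v → w = w') :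
    IsGeodetic G := by
  refine ⟨cert_conn h0 h2, fun u v => ?_⟩
  obtain ⟨p, hp⟩ := cert_exists h0 h2 _ u v rfl
  have hd := cert_dist h0 h1 h2 u v
  refine ⟨p, ⟨?_, by rw [hd, hp]⟩, ?_⟩
  · exact SimpleGraph.Walk.isPath_of_length_eq_dist p (by rw [hd, hp])
  · rintro q ⟨-, hq⟩
    exact cert_unique h0 h1 h3 q p (by rw [hq, hd]) hp

end cert

section st

variable {V : Type} {G : SimpleGraph V}

theorem st_down {f : V → ℕ} {s : V} (hlow : ∀ v, v ≠ s → ∃ w, G.Adj v w ∧ f w < f v) (z : V) (n : ℕ) :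
    ∀ (x : V) (hx : x ∈ ({z}ᶜ : Set V)), f x ≤ n → f x ≤ f z →
      ∃ hs : s ∈ ({z}ᶜ : Set V), (G.induce {z}ᶜ).Reachable ⟨x, hx⟩ ⟨s, hs⟩ := by
  induction n with
  | zero =>
    intro x hx hn hz
    by_cases hxs : x = s
    · subst hxs; exact ⟨hx, SimpleGraph.Reachable.refl _⟩
    · obtain ⟨w, -, hw⟩ := hlow x hxs
      omega
  | succ n ih =>
    intro x hx hn hz
    by_cases hxs : x = s
    · subst hxs; exact ⟨hx, SimpleGraph.Reachable.refl _⟩
    · obtain ⟨w, ha, hw⟩ := hlow x hxs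
      have hwz : w ∈ ({z}ᶜ : Set V) := by
        rw [Set.mem_compl_singleton_iff]
        rintro rfl
        omega
      obtain ⟨hs, hr⟩ := ih w hwz (by omega) (by omega)
      refine ⟨hs, SimpleGraph.Reachable.trans ?_ hr⟩
      exact SimpleGraph.Adj.reachable (G := G.induce {z}ᶜ) (u := ⟨x, hx⟩) (v := ⟨w, hwz⟩) ha

theorem st_up {f : V → ℕ} {t : V} (B : ℕ) (hB : ∀ v, f v ≤ B)
    (hhigh : ∀ v, v ≠ t → ∃ w, G.Adj v w ∧ f v < f w) (z : V) (n : ℕ) :
    ∀ (x : V) (hx : x ∈ ({z}ᶜ : Set V)), B ≤ n + f x → f z ≤ f x →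
      ∃ hs : t ∈ ({z}ᶜ : Set V), (G.induce {z}ᶜ).Reachable ⟨x, hx⟩ ⟨t, hs⟩ := by
  induction n with
  | zero =>
    intro x hx hn hz
    by_cases hxs : x = t
    · subst hxs; exact ⟨hx, SimpleGraph.Reachable.refl _⟩
    · obtain ⟨w, -, hw⟩ := hhigh x hxs
      have := hB w
      omega
  | succ n ih =>
    intro x hx hn hz
    by_cases hxs : x = t
    · subst hxs; exact ⟨hx, SimpleGraph.Reachable.refl _⟩
    · obtain ⟨w, ha, hw⟩ := hhigh x hxs
      have hwz : w ∈ ({z}ᶜ : Set V) := by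
        rw [Set.mem_compl_singleton_iff]
        rintro rfl
        omega
      obtain ⟨hs, hr⟩ := ih w hwz (by omega) (by omega)
      refine ⟨hs, SimpleGraph.Reachable.trans ?_ hr⟩
      exact SimpleGraph.Adj.reachable (G := G.induce {z}ᶜ) (u := ⟨x, hx⟩) (v := ⟨w, hwz⟩) ha

theorem st_conn {f : V → ℕ} {s t : V} (hst : G.Adj s t) (B : ℕ) (hB : ∀ v, f v ≤ B)
    (hlow : ∀ v, v ≠ s → ∃ w, G.Adj v w ∧ f w < f v)
    (hhigh : ∀ v, v ≠ t → ∃ w, G.Adj v w ∧ f v < f w) (z : V) : (G.induce {z}ᶜ).Connected := by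
  have hd : ∀ (x : V) (hx : x ∈ ({z}ᶜ : Set V)), f x ≤ f z →
      ∃ hs : s ∈ ({z}ᶜ : Set V), (G.induce {z}ᶜ).Reachable ⟨x, hx⟩ ⟨s, hs⟩ :=
    fun x hx hz => st_down hlow z _ x hx le_rfl hz
  have hu : ∀ (x : V) (hx : x ∈ ({z}ᶜ : Set V)), f z ≤ f x →
      ∃ hs : t ∈ ({z}ᶜ : Set V), (G.induce {z}ᶜ).Reachable ⟨x, hx⟩ ⟨t, hs⟩ :=
    fun x hx hz => st_up B hB hhigh z B x hx (by omega) hz
  have hne := hst.ne
  rw [SimpleGraph.connected_iff_exists_forall_reachable]
  by_cases hs : s ∈ ({z}ᶜ : Set V)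
  · by_cases ht : t ∈ ({z}ᶜ : Set V)
    · refine ⟨⟨s, hs⟩, ?_⟩
      rintro ⟨x, hx⟩
      rcases le_total (f x) (f z) with h | h
      · obtain ⟨_, hr⟩ := hd x hx h
        exact hr.symm
      · obtain ⟨_, hr⟩ := hu x hx h
        have h2 : (G.induce {z}ᶜ).Reachable ⟨s, hs⟩ ⟨t, ht⟩ :=
          SimpleGraph.Adj.reachable (G := G.induce {z}ᶜ) (u := ⟨s, hs⟩) (v := ⟨t, ht⟩) hst
        exact h2.trans hr.symm
    · refine ⟨⟨s, hs⟩, ?_⟩
      rintro ⟨x, hx⟩
      rcases le_total (f x) (f z) with h | h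
      · obtain ⟨_, hr⟩ := hd x hx h
        exact hr.symm
      · obtain ⟨h', -⟩ := hu x hx h
        exact absurd h' ht
  · have hsz : s = z := by
      simpa using hs
    have ht : t ∈ ({z}ᶜ : Set V) := by
      rw [Set.mem_compl_singleton_iff]
      rintro rfl
      exact hne hsz
    refine ⟨⟨t, ht⟩, ?_⟩
    rintro ⟨x, hx⟩
    rcases le_total (f x) (f z) with h | h
    · obtain ⟨h', -⟩ := hd x hx h
      exact absurd h' hs
    · obtain ⟨_, hr⟩ := hu x hx h
      exact hr.symm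

end st

section graph

/-- the graph -/
def Gr (L h : ℕ) : SimpleGraph (vset L h) where
  Adj u w := adjN L h u.1.1 u.1.2.1 u.1.2.2 w.1.1 w.1.2.1 w.1.2.2
  symm := ⟨fun _ _ hh => Or.symm hh⟩
  loopless := ⟨fun u hh => by
    rcases hh with hh | hh
    · unfold stepN at hh; omega
    · unfold stepN at hh; omega⟩

/-- the distance function -/
def dd (L h : ℕ) (u v : vset L h) : ℕ := DN L h u.1.1 u.1.2.1 u.1.2.2 v.1.1 v.1.2.1 v.1.2.2

theorem good_all (L h t i s T I S : ℕ) (hL : h + 1 ≤ L) (hh : 1 ≤ h)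
    (hu : (t, i, s) ∈ vset L h) (hv : (T, I, S) ∈ vset L h) (hne : (t, i, s) ≠ (T, I, S)) :
    Good L h t i s T I S := by
  have hu' := (mem_vset _ _ _ _ _).1 hu
  have hv' := (mem_vset _ _ _ _ _).1 hv
  rcases hu' with ⟨rfl, rfl, -⟩ | ⟨rfl, -, -, -⟩ | ⟨rfl, -, -, -⟩ | ⟨rfl, -, -, -⟩
  · rcases hv' with ⟨rfl, rfl, -⟩ | ⟨rfl, -, -, -⟩ | ⟨rfl, -, -, -⟩ | ⟨rfl, -, -, -⟩
    · exact good_00 L h s S hL hh (by rintro rfl; exact hne rfl) hu hv
    · exact good_01 L h s I S hL hh hu hv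
    · exact good_02 L h s I S hL hh hu hv
    · exact good_03 L h s I S hL hh hu hv
  · rcases hv' with ⟨rfl, rfl, -⟩ | ⟨rfl, -, -, -⟩ | ⟨rfl, -, -, -⟩ | ⟨rfl, -, -, -⟩
    · exact good_10 L h i s S hL hh hu hv
    · by_cases hi : i = I
      · subst hi; exact good_11e L h i s S hL hh (by rintro rfl; exact hne rfl) hu hv
      · exact good_11n L h i s I S hL hh hi hu hv
    · by_cases hi : i = I
      · subst hi; exact good_12e L h i s S hL hh hu hv
      · exact good_12n L h i s I S hL hh hi hu hv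
    · by_cases hi : i = I
      · subst hi; exact good_13e L h i s S hL hh hu hv
      · exact good_13n L h i s I S hL hh hi hu hv
  · rcases hv' with ⟨rfl, rfl, -⟩ | ⟨rfl, -, -, -⟩ | ⟨rfl, -, -, -⟩ | ⟨rfl, -, -, -⟩
    · exact good_20 L h i s S hL hh hu hv
    · by_cases hi : i = I
      · subst hi; exact good_21e L h i s S hL hh hu hv
      · exact good_21n L h i s I S hL hh hi hu hv
    · by_cases hi : i = I
      · subst hi; exact good_22e L h i s S hL hh (by rintro rfl; exact hne rfl) hu hv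
      · exact good_22n L h i s I S hL hh hi hu hv
    · by_cases hi : i = I
      · subst hi; exact good_23e L h i s S hL hh hu hv
      · exact good_23n L h i s I S hL hh hi hu hv
  · rcases hv' with ⟨rfl, rfl, -⟩ | ⟨rfl, -, -, -⟩ | ⟨rfl, -, -, -⟩ | ⟨rfl, -, -, -⟩
    · exact good_30 L h i s S hL hh hu hv
    · by_cases hi : i = I
      · subst hi; exact good_31e L h i s S hL hh hu hv
      · exact good_31n L h i s I S hL hh hi hu hv
    · by_cases hi : i = I
      · subst hi; exact good_32e L h i s S hL hh hu hv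
      · exact good_32n L h i s I S hL hh hi hu hv
    · by_cases hi : i = I
      · subst hi; exact good_33e L h i s S hL hh (by rintro rfl; exact hne rfl) hu hv
      · exact good_33n L h i s I S hL hh hi hu hv

variable {L h : ℕ}

theorem dd_self (v : vset L h) : dd L h v v = 0 := DN_self _ _ _ _ _ v.2

theorem dd_good (hL : h + 1 ≤ L) (hh : 1 ≤ h) (u v : vset L h) (hne : u ≠ v) :
    ∃ w : vset L h, (Gr L h).Adj u w ∧ dd L h w v + 1 = dd L h u v ∧
      ∀ w' : vset L h, (Gr L h).Adj u w' →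
        (dd L h w' v + 1 = dd L h u v → w' = w) ∧ dd L h u v ≤ dd L h w' v + 1 := by
  obtain ⟨⟨t, i, s⟩, hu⟩ := u
  obtain ⟨⟨T, I, S⟩, hv⟩ := v
  obtain ⟨t', i', s', hm, ha, hd, hall⟩ := good_all L h t i s T I S hL hh hu hv (by
    intro he
    exact hne (Subtype.ext he))
  refine ⟨⟨(t', i', s'), hm⟩, ha, hd, ?_⟩
  rintro ⟨⟨t'', i'', s''⟩, hw⟩ ha'
  obtain ⟨h1, h2⟩ := hall t'' i'' s'' hw ha'
  refine ⟨fun he => ?_, h2⟩
  obtain ⟨rfl, rfl, rfl⟩ := h1 he
  rfl

theorem dd_lip (hL : h + 1 ≤ L) (hh : 1 ≤ h) (u w v : vset L h) (ha : (Gr L h).Adj u w) :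
    dd L h u v ≤ dd L h w v + 1 := by
  by_cases hne : u = v
  · subst hne; rw [dd_self]; omega
  · obtain ⟨_, _, _, hall⟩ := dd_good hL hh u v hne
    exact (hall w ha).2

theorem dd_step (hL : h + 1 ≤ L) (hh : 1 ≤ h) (u v : vset L h) (hne : u ≠ v) :
    ∃ w, (Gr L h).Adj u w ∧ dd L h w v + 1 = dd L h u v := by
  obtain ⟨w, ha, hd, _⟩ := dd_good hL hh u v hne
  exact ⟨w, ha, hd⟩

theorem dd_uniq (hL : h + 1 ≤ L) (hh : 1 ≤ h) (u v w w' : vset L h) (ha : (Gr L h).Adj u w)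
    (ha' : (Gr L h).Adj u w') (hd : dd L h w v + 1 = dd L h u v)
    (hd' : dd L h w' v + 1 = dd L h u v) : w = w' := by
  have hne : u ≠ v := by
    rintro rfl
    rw [dd_self] at hd
    omega
  obtain ⟨w0, _, _, hall⟩ := dd_good hL hh u v hne
  rw [(hall w ha).1 hd, (hall w' ha').1 hd']

instance : Nonempty (vset L h) := ⟨⟨(0, 0, 0), (mem_vset _ _ _ _ _).2 (by omega)⟩⟩

theorem Gr_geodetic (hL : h + 1 ≤ L) (hh : 1 ≤ h) : IsGeodetic (Gr L h) :=
  cert_geodetic dd_self (dd_lip hL hh) (dd_step hL hh) (dd_uniq hL hh)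

theorem Gr_dist (hL : h + 1 ≤ L) (hh : 1 ≤ h) (u v : vset L h) : (Gr L h).dist u v = dd L h u v :=
  cert_dist dd_self (dd_lip hL hh) (dd_step hL hh) u v

/-- the numbering that shows biconnectivity -/
def fN (L h t i s : ℕ) : ℕ :=
  if t = 0 then (if s = 0 then 0 else L + 4 * h + 2 + (L - s))
  else if t = 1 then (if i = 2 ∧ s = L then L + 2 * h + 1 else s)
  else if t = 2 then (if i = 2 then L + 2 * h + 1 + s else L + s)
  else (if i = 2 then L + 2 * h + 1 - s else L + s)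

theorem fN_0 (L h i s : ℕ) : fN L h 0 i s = if s = 0 then 0 else L + 4 * h + 2 + (L - s) := by
  simp [fN]
theorem fN_1 (L h i s : ℕ) :
    fN L h 1 i s = if i = 2 ∧ s = L then L + 2 * h + 1 else s := by simp [fN]
theorem fN_2 (L h i s : ℕ) :
    fN L h 2 i s = if i = 2 then L + 2 * h + 1 + s else L + s := by simp [fN]
theorem fN_3 (L h i s : ℕ) :
    fN L h 3 i s = if i = 2 then L + 2 * h + 1 - s else L + s := by simp [fN]

theorem fN_low (hL : h + 1 ≤ L) (hh : 1 ≤ h) (v : vset L h) (hv : v.1 ≠ (0, 0, 0)) :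
    ∃ w : vset L h, (Gr L h).Adj v w ∧
      fN L h w.1.1 w.1.2.1 w.1.2.2 < fN L h v.1.1 v.1.2.1 v.1.2.2 := by
  obtain ⟨⟨t, i, s⟩, hm⟩ := v
  have key : ∃ t' i' s', (t', i', s') ∈ vset L h ∧ adjN L h t i s t' i' s' ∧
      fN L h t' i' s' < fN L h t i s := by
    rcases (mem_vset _ _ _ _ _).1 hm with ⟨rfl, rfl, h1⟩ | ⟨rfl, h1, h2, h3⟩ | ⟨rfl, h1, h2, h3⟩ |
      ⟨rfl, h1, h2, h3⟩
    · have hs : s ≠ 0 := fun h0 => hv (by subst h0; rfl)
      by_cases hsL : s = L
      · subst hsL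
        refine ⟨2, 0, 2 * h, ?_, adj_02 _ _ _ _, ?_⟩
        · rw [mem_vset]; omega
        · simp only [fN_0, fN_1, fN_2, fN_3]; split_ifs <;> first | omega | (exfalso; tauto)
      · refine ⟨0, 0, s + 1, ?_, adj_up _ _ _ _ _ (by norm_num), ?_⟩
        · rw [mem_vset]; omega
        · simp only [fN_0, fN_1, fN_2, fN_3]; split_ifs <;> first | omega | (exfalso; tauto)
    · by_cases hs : s = 1
      · subst hs
        refine ⟨0, 0, 0, ?_, (adj_01 _ _ _ _).symm, ?_⟩
        · rw [mem_vset]; omega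
        · simp only [fN_0, fN_1, fN_2, fN_3]; split_ifs <;> first | omega | (exfalso; tauto)
      · refine ⟨1, i, s - 1, ?_, adj_dn _ _ _ _ _ (by norm_num) h2, ?_⟩
        · rw [mem_vset]; omega
        · simp only [fN_0, fN_1, fN_2, fN_3]; split_ifs <;> first | omega | (exfalso; tauto)
    · by_cases hs : s = 1
      · subst hs
        refine ⟨1, i, L, ?_, (adj_12 _ _ _).symm, ?_⟩
        · rw [mem_vset]; omega
        · simp only [fN_0, fN_1, fN_2, fN_3]; split_ifs <;> first | omega | (exfalso; tauto)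
      · refine ⟨2, i, s - 1, ?_, adj_dn _ _ _ _ _ (by norm_num) h2, ?_⟩
        · rw [mem_vset]; omega
        · simp only [fN_0, fN_1, fN_2, fN_3]; split_ifs <;> first | omega | (exfalso; tauto)
    · by_cases hi : i = 2
      · subst hi
        by_cases hs : s = h
        · subst hs
          refine ⟨3, 0, s, ?_, adj_33 _ _ _ _ (by norm_num), ?_⟩
          · rw [mem_vset]; omega
          · simp only [fN_0, fN_1, fN_2, fN_3]; split_ifs <;> first | omega | (exfalso; tauto)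
        · refine ⟨3, 2, s + 1, ?_, adj_up _ _ _ _ _ (by norm_num), ?_⟩
          · rw [mem_vset]; omega
          · simp only [fN_0, fN_1, fN_2, fN_3]; split_ifs <;> first | omega | (exfalso; tauto)
      · by_cases hs : s = 1
        · subst hs
          refine ⟨1, i, L, ?_, (adj_13 _ _ _).symm, ?_⟩
          · rw [mem_vset]; omega
          · simp only [fN_0, fN_1, fN_2, fN_3]; split_ifs <;> first | omega | (exfalso; tauto)
        · refine ⟨3, i, s - 1, ?_, adj_dn _ _ _ _ _ (by norm_num) h2, ?_⟩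
          · rw [mem_vset]; omega
          · simp only [fN_0, fN_1, fN_2, fN_3]; split_ifs <;> first | omega | (exfalso; tauto)
  obtain ⟨t', i', s', h1, h2, h3⟩ := key
  exact ⟨⟨(t', i', s'), h1⟩, h2, h3⟩

theorem fN_high (hL : h + 1 ≤ L) (hh : 1 ≤ h) (v : vset L h) (hv : v.1 ≠ (0, 0, 1)) :
    ∃ w : vset L h, (Gr L h).Adj v w ∧
      fN L h v.1.1 v.1.2.1 v.1.2.2 < fN L h w.1.1 w.1.2.1 w.1.2.2 := by
  obtain ⟨⟨t, i, s⟩, hm⟩ := v
  have key : ∃ t' i' s', (t', i', s') ∈ vset L h ∧ adjN L h t i s t' i' s' ∧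
      fN L h t i s < fN L h t' i' s' := by
    rcases (mem_vset _ _ _ _ _).1 hm with ⟨rfl, rfl, h1⟩ | ⟨rfl, h1, h2, h3⟩ | ⟨rfl, h1, h2, h3⟩ |
      ⟨rfl, h1, h2, h3⟩
    · have hs : s ≠ 1 := fun h0 => hv (by subst h0; rfl)
      by_cases hs0 : s = 0
      · subst hs0
        refine ⟨1, 0, 1, ?_, adj_01 _ _ _ _, ?_⟩
        · rw [mem_vset]; omega
        · simp only [fN_0, fN_1, fN_2, fN_3]; split_ifs <;> first | omega | (exfalso; tauto)
      · refine ⟨0, 0, s - 1, ?_, adj_dn _ _ _ _ _ (by norm_num) (by omega), ?_⟩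
        · rw [mem_vset]; omega
        · simp only [fN_0, fN_1, fN_2, fN_3]; split_ifs <;> first | omega | (exfalso; tauto)
    · by_cases hs : s = L
      · subst hs
        refine ⟨2, i, 1, ?_, adj_12 _ _ _, ?_⟩
        · rw [mem_vset]; omega
        · simp only [fN_0, fN_1, fN_2, fN_3]; split_ifs <;> first | omega | (exfalso; tauto)
      · refine ⟨1, i, s + 1, ?_, adj_up _ _ _ _ _ (by norm_num), ?_⟩
        · rw [mem_vset]; omega
        · simp only [fN_0, fN_1, fN_2, fN_3]; split_ifs <;> first | omega | (exfalso; tauto)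
    · by_cases hs : s = 2 * h
      · subst hs
        refine ⟨0, 0, L, ?_, (adj_02 _ _ _ _).symm, ?_⟩
        · rw [mem_vset]; omega
        · simp only [fN_0, fN_1, fN_2, fN_3]; split_ifs <;> first | omega | (exfalso; tauto)
      · refine ⟨2, i, s + 1, ?_, adj_up _ _ _ _ _ (by norm_num), ?_⟩
        · rw [mem_vset]; omega
        · simp only [fN_0, fN_1, fN_2, fN_3]; split_ifs <;> first | omega | (exfalso; tauto)
    · by_cases hi : i = 2
      · subst hi
        by_cases hs : s = 1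
        · subst hs
          refine ⟨1, 2, L, ?_, (adj_13 _ _ _).symm, ?_⟩
          · rw [mem_vset]; omega
          · simp only [fN_0, fN_1, fN_2, fN_3]; split_ifs <;> first | omega | (exfalso; tauto)
        · refine ⟨3, 2, s - 1, ?_, adj_dn _ _ _ _ _ (by norm_num) h2, ?_⟩
          · rw [mem_vset]; omega
          · simp only [fN_0, fN_1, fN_2, fN_3]; split_ifs <;> first | omega | (exfalso; tauto)
      · by_cases hs : s = h
        · subst hs
          refine ⟨3, 2, s, ?_, adj_33 _ _ _ _ hi, ?_⟩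
          · rw [mem_vset]; omega
          · simp only [fN_0, fN_1, fN_2, fN_3]; split_ifs <;> first | omega | (exfalso; tauto)
        · refine ⟨3, i, s + 1, ?_, adj_up _ _ _ _ _ (by norm_num), ?_⟩
          · rw [mem_vset]; omega
          · simp only [fN_0, fN_1, fN_2, fN_3]; split_ifs <;> first | omega | (exfalso; tauto)
  obtain ⟨t', i', s', h1, h2, h3⟩ := key
  exact ⟨⟨(t', i', s'), h1⟩, h2, h3⟩

theorem fN_bound (v : vset L h) : fN L h v.1.1 v.1.2.1 v.1.2.2 ≤ 2 * L + 4 * h + 2 := by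
  obtain ⟨⟨t, i, s⟩, hm⟩ := v
  rcases (mem_vset _ _ _ _ _).1 hm with ⟨rfl, rfl, h1⟩ | ⟨rfl, h1, h2, h3⟩ | ⟨rfl, h1, h2, h3⟩ |
      ⟨rfl, h1, h2, h3⟩ <;>
  · simp only [fN_0, fN_1, fN_2, fN_3]
    split_ifs <;> first | omega | (exfalso; tauto)

theorem card_vset' (L h : ℕ) : Nat.card (vset L h) = 1 + 4 * L + 9 * h := by
  rw [Nat.card_eq_fintype_card, Fintype.card_coe, card_vset]

theorem Gr_biconnected (hL : h + 1 ≤ L) (hh : 1 ≤ h) : IsBiconnected (Gr L h) := by
  refine ⟨cert_conn dd_self (dd_step hL hh), by rw [card_vset']; omega, fun z => ?_⟩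
  have ha : (0, 0, 0) ∈ vset L h := (mem_vset _ _ _ _ _).2 (by omega)
  have hb : (0, 0, 1) ∈ vset L h := (mem_vset _ _ _ _ _).2 (by omega)
  refine st_conn (f := fun v => fN L h v.1.1 v.1.2.1 v.1.2.2) (s := ⟨(0, 0, 0), ha⟩)
    (t := ⟨(0, 0, 1), hb⟩) (adj_up _ _ _ _ _ (by norm_num)) _ fN_bound ?_ ?_ z
  · intro v hv
    exact fN_low hL hh v (fun he => hv (Subtype.ext he))
  · intro v hv
    exact fN_high hL hh v (fun he => hv (Subtype.ext he))

theorem dd_le (hL : h + 1 ≤ L) (u v : vset L h) : dd L h u v ≤ L + 2 * h := by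
  obtain ⟨⟨t, i, s⟩, hu⟩ := u
  obtain ⟨⟨T, I, S⟩, hv⟩ := v
  change DN L h t i s T I S ≤ L + 2 * h
  rcases (mem_vset _ _ _ _ _).1 hu with ⟨rfl, rfl, h1⟩ | ⟨rfl, h1, h2, h3⟩ | ⟨rfl, h1, h2, h3⟩ |
      ⟨rfl, h1, h2, h3⟩
  · rcases (mem_vset _ _ _ _ _).1 hv with ⟨rfl, rfl, h1'⟩ | ⟨rfl, h1', h2', h3'⟩ |
      ⟨rfl, h1', h2', h3'⟩ | ⟨rfl, h1', h2', h3'⟩
    · rw [DN_00]; omega
    · rw [DN_01]; omega
    · rw [DN_02]; omega
    · rw [DN_03]; omega
  · rcases (mem_vset _ _ _ _ _).1 hv with ⟨rfl, rfl, h1'⟩ | ⟨rfl, h1', h2', h3'⟩ |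
      ⟨rfl, h1', h2', h3'⟩ | ⟨rfl, h1', h2', h3'⟩
    · rw [DN_10]; omega
    · by_cases hi : i = I
      · subst hi; rw [DN_11e]; omega
      · rw [DN_11n _ _ _ _ hi]; omega
    · by_cases hi : i = I
      · subst hi; rw [DN_12e]; omega
      · rw [DN_12n _ _ _ _ hi]; omega
    · by_cases hi : i = I
      · subst hi; rw [DN_13e]; omega
      · rw [DN_13n _ _ _ _ hi]; omega
  · rcases (mem_vset _ _ _ _ _).1 hv with ⟨rfl, rfl, h1'⟩ | ⟨rfl, h1', h2', h3'⟩ |
      ⟨rfl, h1', h2', h3'⟩ | ⟨rfl, h1', h2', h3'⟩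
    · rw [DN_20]; omega
    · by_cases hi : i = I
      · subst hi; rw [DN_21e]; omega
      · rw [DN_21n _ _ _ _ hi]; omega
    · by_cases hi : i = I
      · subst hi; rw [DN_22e]; omega
      · rw [DN_22n _ _ _ _ hi]; omega
    · by_cases hi : i = I
      · subst hi; rw [DN_23e]; omega
      · rw [DN_23n _ _ _ _ hi]; omega
  · rcases (mem_vset _ _ _ _ _).1 hv with ⟨rfl, rfl, h1'⟩ | ⟨rfl, h1', h2', h3'⟩ |
      ⟨rfl, h1', h2', h3'⟩ | ⟨rfl, h1', h2', h3'⟩
    · rw [DN_30]; omega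
    · by_cases hi : i = I
      · subst hi; rw [DN_31e]; omega
      · rw [DN_31n _ _ _ _ hi]; omega
    · by_cases hi : i = I
      · subst hi; rw [DN_32e]; omega
      · rw [DN_32n _ _ _ _ hi]; omega
    · by_cases hi : i = I
      · subst hi; rw [DN_33e]; omega
      · rw [DN_33n _ _ _ _ hi]; omega

theorem dd_attained (hL : h + 1 ≤ L) (hh : 1 ≤ h) : ∃ u v : vset L h, dd L h u v = L + 2 * h := by
  refine ⟨⟨(0, 0, h), (mem_vset _ _ _ _ _).2 (by omega)⟩,
    ⟨(3, 0, h), (mem_vset _ _ _ _ _).2 (by omega)⟩, ?_⟩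
  change DN L h 0 0 h 3 0 h = L + 2 * h
  rw [DN_03]
  omega

end graph

section transfer

variable {V W : Type} {G : SimpleGraph V} {H : SimpleGraph W}

theorem iso_dist (e : G ≃g H) (hG : G.Connected) (hH : H.Connected) (u v : V) :
    H.dist (e u) (e v) = G.dist u v := by
  apply le_antisymm
  · obtain ⟨p, hp⟩ := hG.exists_walk_length_eq_dist u v
    rw [← hp, ← SimpleGraph.Walk.length_map e.toHom p]
    exact SimpleGraph.dist_le _
  · obtain ⟨p, hp⟩ := hH.exists_walk_length_eq_dist (e u) (e v)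
    rw [← hp, ← SimpleGraph.Walk.length_map e.symm.toHom p]
    have h1 := SimpleGraph.dist_le (p.map e.symm.toHom)
    have h2 : G.dist (e.symm.toHom (e u)) (e.symm.toHom (e v)) = G.dist u v := by
      congr 1
      · exact e.symm_apply_apply u
      · exact e.symm_apply_apply v
    rw [h2] at h1
    exact h1

variable {L h : ℕ} (τ : W ≃ vset L h)

/-- the certificate function on a copy of the graph -/
def dc (u v : W) : ℕ := dd L h (τ u) (τ v)

theorem dc_self (v : W) : dc τ v v = 0 := dd_self _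

theorem dc_lip (hL : h + 1 ≤ L) (hh : 1 ≤ h) (u w v : W)
    (ha : ((Gr L h).comap τ).Adj u w) : dc τ u v ≤ dc τ w v + 1 :=
  dd_lip hL hh (τ u) (τ w) (τ v) ha

theorem dc_step (hL : h + 1 ≤ L) (hh : 1 ≤ h) (u v : W) (hne : u ≠ v) :
    ∃ w, ((Gr L h).comap τ).Adj u w ∧ dc τ w v + 1 = dc τ u v := by
  obtain ⟨w, ha, hd⟩ := dd_step hL hh (τ u) (τ v) (fun he => hne (τ.injective he))
  refine ⟨τ.symm w, ?_, ?_⟩
  · change (Gr L h).Adj (τ u) (τ (τ.symm w))
    rw [τ.apply_symm_apply]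
    exact ha
  · unfold dc
    rw [τ.apply_symm_apply]
    exact hd

theorem dc_uniq (hL : h + 1 ≤ L) (hh : 1 ≤ h) (u v w w' : W)
    (ha : ((Gr L h).comap τ).Adj u w) (ha' : ((Gr L h).comap τ).Adj u w')
    (hd : dc τ w v + 1 = dc τ u v) (hd' : dc τ w' v + 1 = dc τ u v) : w = w' :=
  τ.injective (dd_uniq hL hh (τ u) (τ v) (τ w) (τ w') ha ha' hd hd')

theorem Gc_geodetic (hL : h + 1 ≤ L) (hh : 1 ≤ h) : IsGeodetic ((Gr L h).comap τ) :=
  haveI : Nonempty W := ⟨τ.symm (Classical.arbitrary _)⟩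
  cert_geodetic (dc_self τ) (dc_lip τ hL hh) (dc_step τ hL hh) (dc_uniq τ hL hh)

theorem Gc_dist (hL : h + 1 ≤ L) (hh : 1 ≤ h) (u v : W) :
    ((Gr L h).comap τ).dist u v = dd L h (τ u) (τ v) :=
  cert_dist (dc_self τ) (dc_lip τ hL hh) (dc_step τ hL hh) u v

theorem Gc_biconnected (hL : h + 1 ≤ L) (hh : 1 ≤ h) : IsBiconnected ((Gr L h).comap τ) := by
  haveI : Nonempty W := ⟨τ.symm (Classical.arbitrary _)⟩
  refine ⟨(Gc_geodetic τ hL hh).1, by rw [Nat.card_congr τ, card_vset']; omega, fun z => ?_⟩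
  have ha : (0, 0, 0) ∈ vset L h := (mem_vset _ _ _ _ _).2 (by omega)
  have hb : (0, 0, 1) ∈ vset L h := (mem_vset _ _ _ _ _).2 (by omega)
  refine st_conn (f := fun v => fN L h (τ v).1.1 (τ v).1.2.1 (τ v).1.2.2)
    (s := τ.symm ⟨(0, 0, 0), ha⟩) (t := τ.symm ⟨(0, 0, 1), hb⟩) ?_ _ (fun v => fN_bound (τ v)) ?_ ?_ z
  · change (Gr L h).Adj (τ (τ.symm _)) (τ (τ.symm _))
    rw [τ.apply_symm_apply, τ.apply_symm_apply]
    exact adj_up _ _ _ _ _ (by norm_num)
  · intro v hv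
    obtain ⟨w, h1, h2⟩ := fN_low hL hh (τ v) (fun he => hv (by
      rw [Equiv.eq_symm_apply]
      exact Subtype.ext he))
    refine ⟨τ.symm w, ?_, ?_⟩
    · change (Gr L h).Adj (τ v) (τ (τ.symm w))
      rw [τ.apply_symm_apply]
      exact h1
    · rw [τ.apply_symm_apply]
      exact h2
  · intro v hv
    obtain ⟨w, h1, h2⟩ := fN_high hL hh (τ v) (fun he => hv (by
      rw [Equiv.eq_symm_apply]
      exact Subtype.ext he))
    refine ⟨τ.symm w, ?_, ?_⟩
    · change (Gr L h).Adj (τ v) (τ (τ.symm w))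
      rw [τ.apply_symm_apply]
      exact h1
    · rw [τ.apply_symm_apply]
      exact h2

/-- isomorphic copies have the same diameter -/
theorem diam_le {L' h' : ℕ} {W' : Type} (τ' : W' ≃ vset L' h') (hL : h + 1 ≤ L) (hh : 1 ≤ h)
    (hL' : h' + 1 ≤ L') (hh' : 1 ≤ h') (e : (Gr L h).comap τ ≃g (Gr L' h').comap τ') :
    L + 2 * h ≤ L' + 2 * h' := by
  obtain ⟨u, v, huv⟩ := dd_attained hL hh
  have h1 := iso_dist e (Gc_geodetic τ hL hh).1 (Gc_geodetic τ' hL' hh').1 (τ.symm u) (τ.symm v)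
  rw [Gc_dist τ hL hh, Gc_dist τ' hL' hh', τ.apply_symm_apply, τ.apply_symm_apply, huv] at h1
  rw [← h1]
  exact dd_le hL' _ _

end transfer

section counting

theorem exists_equiv {L h n : ℕ} (hn : 1 + 4 * L + 9 * h = n) : Nonempty (Fin n ≃ vset L h) := by
  refine ⟨Fintype.equivOfCardEq ?_⟩
  rw [Fintype.card_fin, Fintype.card_coe, card_vset, hn]

theorem g_lower (n : ℕ) : (n - 5) / 52 ≤ g n := by
  have hpar : ∀ k : Fin ((n - 5) / 52), ∃ L h : ℕ, h + 1 ≤ L ∧ 1 ≤ h ∧ 1 + 4 * L + 9 * h = n ∧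
      h = 4 * (k : ℕ) + (n - 2) % 4 + 1 := by
    rintro ⟨k, hk⟩
    refine ⟨(n - 1 - 9 * (4 * k + (n - 2) % 4 + 1)) / 4, 4 * k + (n - 2) % 4 + 1, ?_, ?_, ?_, rfl⟩
    · omega
    · omega
    · omega
  choose L h hL hh hn hk using hpar
  have τ : ∀ k : Fin ((n - 5) / 52), Fin n ≃ vset (L k) (h k) :=
    fun k => Classical.choice (exists_equiv (hn k))
  let F : Fin ((n - 5) / 52) → Quotient (isoSetoid n) := fun k =>
    Quotient.mk (isoSetoid n) ⟨(Gr (L k) (h k)).comap (τ k),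
      Gc_biconnected (τ k) (hL k) (hh k), Gc_geodetic (τ k) (hL k) (hh k)⟩
  have hF : Function.Injective F := by
    intro j k hjk
    have h1 : Nonempty ((Gr (L j) (h j)).comap (τ j) ≃g (Gr (L k) (h k)).comap (τ k)) :=
      Quotient.exact hjk
    obtain ⟨e⟩ := h1
    have h2 := diam_le (τ j) (τ k) (hL j) (hh j) (hL k) (hh k) e
    have h3 := diam_le (τ k) (τ j) (hL k) (hh k) (hL j) (hh j) e.symm
    have h4 := hn j
    have h5 := hn k
    have h6 := hk j
    have h7 := hk k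
    apply Fin.ext
    omega
  have h1 := Nat.card_le_card_of_injective F hF
  rw [Nat.card_eq_fintype_card, Fintype.card_fin] at h1
  exact h1

end counting

/-- The number `g n` of biconnected geodetic graphs on `n` vertices tends to infinity, at least
linearly: no constant `c` satisfies `g n ≤ c` for infinitely many `n`. -/
theorem result : (¬ ∃ c : ℕ, {n : ℕ | g n ≤ c}.Infinite) ∧ ∀ n : ℕ, n ≤ 52 * g n + 56 := by
  have h1 : ∀ n : ℕ, n ≤ 52 * g n + 56 := by
    intro n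
    have := g_lower n
    omega
  refine ⟨?_, h1⟩
  rintro ⟨c, hc⟩
  refine hc ((Set.finite_Iic (52 * c + 56)).subset ?_)
  intro n hn
  have h2 : g n ≤ c := hn
  have h3 := h1 n
  exact Set.mem_Iic.2 (by omega)

end Pool.Agent.Results.MP_be4ebb_co.GeodeticBlocks
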